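import Pool.Agent.Helper67.CF.Lib

namespace Pool.Agent.Results.MP_cea741_ag.SquareCollisions

open Polynomial

/-- The ideal, in the affine chart `k[x][y]` (inner variable `x`, outer variable `y`), of the scheme
`Y_{b,a}`: the `m`-th power of the ideal `(y - g(x-b), (x-b)^r)` of a curvilinear scheme of length `r`,
where `g(t) = a_0 + a_1 t + ... + a_{r-1} t^{r-1}`. -/
noncomputable def idealY (k : Type*) [Field k] (r m : ℕ) (b : k) (a : Fin r → k) : Ideal k[X][X] :=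
  (Ideal.span {(X : k[X][X]) - C (∑ i : Fin r, C (a i) * (X - C b) ^ (i : ℕ)), C ((X - C b) ^ r)}) ^ m

/-- For general `Y` there is no nonzero form of degree `d` vanishing on `Y`. -/
def GeneralVanishing (k : Type*) [Field k] (r m d : ℕ) : Prop :=
  ∃ P : MvPolynomial (Fin r) k, P ≠ 0 ∧
    ∀ (b : k) (a : Fin r → k), MvPolynomial.eval a P ≠ 0 →
      ∀ Φ : MvPolynomial (Fin 3) k, Φ.IsHomogeneous d →
        MvPolynomial.aeval ![(1 : k[X][X]), C X, X] Φ ∈ idealY k r m b a → Φ = 0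

theorem gv_of {k : Type*} [Field k] (r m d : ℕ)
    (h : ∃ P : MvPolynomial (Fin r) k, P ≠ 0 ∧ ∀ a : Fin r → k, MvPolynomial.eval a P ≠ 0 →
      ∀ F : k[X][X], Helper67.CF.DegLE d F →
        (X : k[X][X][X]) ^ (r * m) ∣ Helper67.CF.Wt k r (taylor (Helper67.CF.gpoly a) F) → F = 0) :
    GeneralVanishing k r m d := by
  obtain ⟨P, hP, hPa⟩ := h
  refine ⟨P, hP, fun b a ha Φ hΦ hmem => ?_⟩
  apply Helper67.CF.dehom_injective d Φ hΦ
  apply Helper67.CF.shift_injective b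
  apply hPa a ha _ (Helper67.CF.shift_degLE d b _ (Helper67.CF.dehom_degLE d Φ hΦ))
  exact Helper67.CF.lam_of_mem r m (Helper67.CF.gpoly a) _ (Helper67.CF.shift_mem r m b a _ hmem)

theorem squares {k : Type*} [Field k] [CharZero k] (s m d : ℕ) (hs : 4 ≤ s) (hm : 1 ≤ m) (hd : d ≤ m * s) :
    GeneralVanishing k (s ^ 2) m d := by
  obtain ⟨P, hP, hPa⟩ := Helper67.CF.main_exists (k := k) s hs m hm
  refine gv_of _ _ _ ⟨P, hP, fun a ha F hF hW => hPa a ha F ?_ hW⟩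
  intro j i hne
  exact le_trans (hF j i hne) hd

theorem nearA {k : Type*} [Field k] [CharZero k] (e r m d : ℕ) (he : 3 ≤ e) (hr : r ≤ e * e)
    (hr2 : (e - 1) * (e - 2) / 2 ≤ r) (hr1 : 1 ≤ r) (hd : d < e * m)
    (hc : e * d + 1 ≤ r * m + (e - 1) * (e - 2) / 2) : GeneralVanishing k r m d := by
  obtain ⟨a0, ha0⟩ := Helper67.CF.exists_g (k := k) e (by omega) r
  exact gv_of _ _ _ (Helper67.CF.open_of_special r (r * m) d hr1 a0
    (fun F hF hW => Helper67.CF.core2A e he r hr hr2 (Helper67.CF.gpoly a0) ha0 m d F hd hc hF hW))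

theorem nearB {k : Type*} [Field k] [CharZero k] (e r m d : ℕ) (he : 3 ≤ e) (hr : e * e ≤ r)
    (hd : d < e * m) : GeneralVanishing k r m d := by
  obtain ⟨a0, ha0⟩ := Helper67.CF.exists_g (k := k) e (by omega) r
  have hr1 : 1 ≤ r := by nlinarith
  exact gv_of _ _ _ (Helper67.CF.open_of_special r (r * m) d hr1 a0
    (fun F hF hW => Helper67.CF.core2B e he r hr (Helper67.CF.gpoly a0) ha0 m d F hd hF hW))


theorem aux_lin (r m d e : ℕ) (he : 4 ≤ e) (hre : r ≤ e * e) (hd : d ^ 2 ≤ m ^ 2 * r)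
    (h : m * (e ^ 2 - r) ≤ e * (e - 3)) : e * d + 1 ≤ r * m + (e - 1) * (e - 2) / 2 := by
  obtain ⟨q, rfl⟩ : ∃ q, e = q + 4 := ⟨e - 4, by omega⟩
  obtain ⟨c, hc⟩ : ∃ c, (q + 4) * (q + 4) = r + c := ⟨_, (Nat.add_sub_cancel' hre).symm⟩
  have h1 : (q + 4) ^ 2 - r = c := by rw [pow_two, hc]; omega
  rw [h1] at h
  have e1 : q + 4 - 3 = q + 1 := by omega
  have e2 : q + 4 - 1 = q + 3 := by omega
  have e3 : q + 4 - 2 = q + 2 := by omega
  rw [e1] at h
  rw [e2, e3]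
  have hdiv : 2 * ((q + 3) * (q + 2) / 2) = (q + 3) * (q + 2) := by
    apply Nat.mul_div_cancel'
    have := (Nat.even_mul_succ_self (q + 2)).two_dvd
    rw [mul_comm]; exact this
  have h2 : 2 * ((q + 4) * d) ≤ m * (r + (q + 4) * (q + 4)) := by
    by_contra hlt
    push Not at hlt
    have h3 : (m * (r + (q + 4) * (q + 4))) ^ 2 < (2 * ((q + 4) * d)) ^ 2 :=
      Nat.pow_lt_pow_left hlt (by norm_num)
    have h4 : (2 * ((q + 4) * d)) ^ 2 ≤ 4 * (q + 4) ^ 2 * (m ^ 2 * r) := by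
      have : (2 * ((q + 4) * d)) ^ 2 = 4 * (q + 4) ^ 2 * d ^ 2 := by ring
      rw [this]
      exact Nat.mul_le_mul_left _ hd
    have h5 : 4 * (q + 4) ^ 2 * (m ^ 2 * r) ≤ (m * (r + (q + 4) * (q + 4))) ^ 2 := by
      have h6 : 4 * (q + 4) ^ 2 * r ≤ (r + (q + 4) * (q + 4)) ^ 2 := by
        have := sq_nonneg ((r : ℤ) - (q + 4) * (q + 4))
        zify
        nlinarith
      calc 4 * (q + 4) ^ 2 * (m ^ 2 * r) = m ^ 2 * (4 * (q + 4) ^ 2 * r) := by ring
        _ ≤ m ^ 2 * (r + (q + 4) * (q + 4)) ^ 2 := Nat.mul_le_mul_left _ h6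
        _ = _ := by ring
    omega
  rw [hc] at h2
  nlinarith


theorem uniformC {k : Type*} [Field k] [CharZero k] (e t r m d : ℕ) (he : 3 ≤ e) (hte : t < e) (her : e * e ≤ r)
    (hM : e * (e + t) + 1 + (t + 1) * (t + 2) / 2 ≤ r + (e - 1) * (e - 2) / 2) (hm : 1 ≤ m)
    (hd : d ≤ e * m + t) : GeneralVanishing k r m d := by
  obtain ⟨P, hP, hPa⟩ := Helper67.CF.main_exists' (k := k) e t r he hte her hM m hm
  refine gv_of _ _ _ ⟨P, hP, fun a ha F hF hW => hPa a ha F ?_ hW⟩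
  intro j i hne
  exact le_trans (hF j i hne) hd

theorem two_div (n : ℕ) : 2 * ((n + 1) * (n + 2) / 2) = (n + 1) * (n + 2) := by
  apply Nat.mul_div_cancel'
  exact (Nat.even_mul_succ_self (n + 1)).two_dvd

theorem aux_half (r m d f : ℕ) (hf : 3 ≤ f) (hr : f * f < r) (hr' : r < (f + 1) * (f + 1))
    (hm : 1 ≤ m) (h2m : 2 * m ≤ f) (hd : d ^ 2 ≤ m ^ 2 * r) :
    ((f + 1) * d + 1 ≤ r * m + f * (f - 1) / 2) ∨
    (∃ t, t < f ∧ d ≤ f * m + t ∧ f * (f + t) + 1 + (t + 1) * (t + 2) / 2 ≤ r + (f - 1) * (f - 2) / 2) := by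
  obtain ⟨q, rfl⟩ : ∃ q, f = q + 3 := ⟨f - 3, by omega⟩
  obtain ⟨c, rfl⟩ : ∃ c, r = (q + 3) * (q + 3) + c := ⟨_, (Nat.add_sub_cancel' hr.le).symm⟩
  have e1 : q + 3 - 1 = q + 2 := by omega
  have e2 : q + 3 - 2 = q + 1 := by omega
  rw [e1, e2]
  have hA := two_div (q + 1)
  have hA' : (q + 1 + 1) * (q + 1 + 2) = (q + 3) * (q + 2) := by ring
  rw [hA'] at hA
  have hB := two_div q
  have hB' : (q + 1) * (q + 2) = (q + 2) * (q + 1) := by ring
  rw [hB'] at hB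
  have hc0 : 1 ≤ c := by omega
  have hc1 : c ≤ 2 * (q + 3) := by nlinarith
  rcases Nat.lt_or_ge ((q + 3) * m) d with hdm | hdm
  · obtain ⟨t, rfl⟩ : ∃ t, d = (q + 3) * m + t := ⟨_, (Nat.add_sub_cancel' hdm.le).symm⟩
    have ht : 1 ≤ t := by omega
    have hk : 2 * (q + 3) * t < m * c := by
      have h1 : m * (2 * (q + 3) * t) + t ^ 2 ≤ m * (m * c) := by nlinarith
      have h2 : 1 ≤ t ^ 2 := Nat.one_le_pow _ _ ht
      have h3 : m * (2 * (q + 3) * t) < m * (m * c) := by omega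
      exact Nat.lt_of_mul_lt_mul_left h3
    have h4t : 4 * t < c := by
      have h1 : (q + 3) * (4 * t) < (q + 3) * c := by nlinarith
      exact Nat.lt_of_mul_lt_mul_left h1
    have hT := two_div t
    rcases Nat.lt_or_ge c (q + 3) with hcf | hcf
    · right
      refine ⟨t, by omega, le_rfl, ?_⟩
      have key : 2 * ((q + 3) * (q + 3 + t) + 1) + (t + 1) * (t + 2)
          ≤ 2 * ((q + 3) * (q + 3) + c) + (q + 2) * (q + 1) := by nlinarith
      omega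
    · left
      have hq : 1 ≤ q := by
        by_contra hq0
        have : q = 0 := by omega
        subst this
        have hm1 : m = 1 := by omega
        subst hm1
        omega
      have key : 2 * ((q + 3 + 1) * ((q + 3) * m + t) + 1)
          ≤ 2 * (((q + 3) * (q + 3) + c) * m) + (q + 3) * (q + 2) := by
        have p1 : (q + 3) * (2 * m) ≤ (q + 3) * (q + 3) := Nat.mul_le_mul_left _ h2m
        obtain ⟨n, rfl⟩ : ∃ n, m = n + 1 := ⟨m - 1, by omega⟩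
        obtain ⟨c', rfl⟩ : ∃ c', c = q + 3 + c' := ⟨_, (Nat.add_sub_cancel' hcf).symm⟩
        nlinarith
      omega
  · right
    refine ⟨0, by omega, by omega, ?_⟩
    have key : 2 * ((q + 3) * (q + 3 + 0) + 1) + 2
          ≤ 2 * ((q + 3) * (q + 3) + c) + (q + 2) * (q + 1) := by nlinarith
    omega

theorem aux_t (r t f : ℕ) (hf : 3 ≤ f) (hr' : r < (f + 1) * (f + 1))
    (hM : (t + 1) * (t + 2) / 2 + f * t + f ^ 2 + 1 ≤ r + (f - 1) * (f - 2) / 2) : t < f := by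
  obtain ⟨q, rfl⟩ : ∃ q, f = q + 3 := ⟨f - 3, by omega⟩
  have e1 : q + 3 - 1 = q + 2 := by omega
  have e2 : q + 3 - 2 = q + 1 := by omega
  rw [e1, e2] at hM
  have hB := two_div q
  have hB' : (q + 1) * (q + 2) = (q + 2) * (q + 1) := by ring
  rw [hB'] at hB
  have hT := two_div t
  by_contra hlt
  push Not at hlt
  have h1 : (q + 3) * (q + 3) ≤ (q + 3) * t := Nat.mul_le_mul_left _ hlt
  have h2 : (q + 3 + 1) * (q + 3 + 2) ≤ (t + 1) * (t + 2) := Nat.mul_le_mul (by omega) (by omega)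
  nlinarith

/-- **Main result.** `k` algebraically closed of characteristic zero, `r > 9`, `m ≥ 1`.
(1) The vanishing asked for holds whenever `r` is a perfect square (all `m`).
(2) It holds for all `r > 9` and all `m ≤ ⌊√r⌋ / 2`.
(3) It holds for all `r > 9` and all `m` with `m (⌈√r⌉² - r) ≤ ⌈√r⌉ (⌈√r⌉ - 3)`.
(4) For all `r > 9`, all `m` and all `d ≤ m√r` with `⌈√r⌉ d < r m + (⌈√r⌉ - 1)(⌈√r⌉ - 2)/2`.
(5) For all `r > 9`, all `m` and all `d ≤ m ⌊√r⌋ + t` for every `t` satisfying the stated inequality. -/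
theorem result (k : Type*) [Field k] [IsAlgClosed k] [CharZero k] (r m : ℕ) (hr : 9 < r) (hm : 1 ≤ m) :
    (IsSquare r → ∀ d : ℕ, (d : ℝ) ≤ m * √(r : ℝ) → GeneralVanishing k r m d) ∧
    (2 * m ≤ ⌊√(r : ℝ)⌋₊ → ∀ d : ℕ, (d : ℝ) ≤ m * √(r : ℝ) → GeneralVanishing k r m d) ∧
    (m * (⌈√(r : ℝ)⌉₊ ^ 2 - r) ≤ ⌈√(r : ℝ)⌉₊ * (⌈√(r : ℝ)⌉₊ - 3) →
      ∀ d : ℕ, (d : ℝ) ≤ m * √(r : ℝ) → GeneralVanishing k r m d) ∧
    (∀ d : ℕ, (d : ℝ) ≤ m * √(r : ℝ) →
      ⌈√(r : ℝ)⌉₊ * d < r * m + (⌈√(r : ℝ)⌉₊ - 1) * (⌈√(r : ℝ)⌉₊ - 2) / 2 → GeneralVanishing k r m d) ∧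
    (∀ t : ℕ, (t + 1) * (t + 2) / 2 + ⌊√(r : ℝ)⌋₊ * t + ⌊√(r : ℝ)⌋₊ ^ 2 + 1
        ≤ r + (⌊√(r : ℝ)⌋₊ - 1) * (⌊√(r : ℝ)⌋₊ - 2) / 2 →
      ∀ d : ℕ, d ≤ m * ⌊√(r : ℝ)⌋₊ + t → GeneralVanishing k r m d) := by
  have hr0 : (0 : ℝ) ≤ r := Nat.cast_nonneg r
  have hs : √(r : ℝ) ^ 2 = r := Real.sq_sqrt hr0
  have hsn : 0 ≤ √(r : ℝ) := Real.sqrt_nonneg _
  have h3 : (3 : ℝ) < √(r : ℝ) := by
    rw [Real.lt_sqrt (by norm_num)]
    have : ((9 : ℕ) : ℝ) < r := by exact_mod_cast hr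
    norm_num at this ⊢
    exact this
  have hdd : ∀ d : ℕ, (d : ℝ) ≤ m * √(r : ℝ) → d ^ 2 ≤ m ^ 2 * r := by
    intro d hd
    have h1 : (d : ℝ) ^ 2 ≤ (m * √(r : ℝ)) ^ 2 := pow_le_pow_left₀ (Nat.cast_nonneg d) hd 2
    rw [mul_pow, hs] at h1
    exact_mod_cast h1
  -- squares
  have hsq : ∀ e d : ℕ, r = e ^ 2 → d ^ 2 ≤ m ^ 2 * r → GeneralVanishing k r m d := by
    intro e d h hd2
    have he4 : 4 ≤ e := by
      by_contra hlt
      push Not at hlt
      have : e ^ 2 ≤ 3 ^ 2 := Nat.pow_le_pow_left (by omega) 2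
      omega
    rw [h]
    apply squares e m d he4 hm
    by_contra hlt'
    push Not at hlt'
    have : (m * e) ^ 2 < d ^ 2 := Nat.pow_lt_pow_left hlt' (by norm_num)
    rw [h] at hd2
    nlinarith
  set f := ⌊√(r : ℝ)⌋₊ with hfdef
  have hf3 : 3 ≤ f := Nat.le_floor (by norm_num; exact h3.le)
  have hfr : f * f ≤ r := by
    have h1 : (f : ℝ) ≤ √(r : ℝ) := Nat.floor_le hsn
    have : ((f : ℝ)) * f ≤ r := by
      have := Nat.cast_nonneg (α := ℝ) f
      nlinarith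
    exact_mod_cast this
  have hfr' : r < (f + 1) * (f + 1) := by
    have h1 : √(r : ℝ) < (f : ℝ) + 1 := Nat.lt_floor_add_one _
    have : (r : ℝ) < ((f : ℝ) + 1) * ((f : ℝ) + 1) := by nlinarith
    exact_mod_cast this
  set e := ⌈√(r : ℝ)⌉₊ with he
  have he4 : 4 ≤ e := by
    have : (3 : ℝ) < (e : ℝ) := lt_of_lt_of_le h3 (Nat.le_ceil _)
    have : 3 < e := by exact_mod_cast this
    omega
  have hle : √(r : ℝ) ≤ e := Nat.le_ceil _
  have hre : r ≤ e * e := by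
    have : (r : ℝ) ≤ (e : ℝ) * e := by nlinarith
    exact_mod_cast this
  have hlt : (e : ℝ) < √(r : ℝ) + 1 := Nat.ceil_lt_add_one hsn
  have hre2 : (e - 1) * (e - 1) < r := by
    have h1 : ((e - 1 : ℕ) : ℝ) = (e : ℝ) - 1 := by
      rw [Nat.cast_sub (by omega)]; simp
    have h2 : ((e - 1 : ℕ) : ℝ) * ((e - 1 : ℕ) : ℝ) < r := by
      rw [h1]
      have : (4 : ℝ) ≤ e := by exact_mod_cast he4
      nlinarith
    exact_mod_cast h2
  have hr2 : (e - 1) * (e - 2) / 2 ≤ r := by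
    have : (e - 1) * (e - 2) ≤ (e - 1) * (e - 1) := Nat.mul_le_mul_left _ (by omega)
    omega
  have hceil : ∀ d : ℕ, d ^ 2 ≤ m ^ 2 * r → e * d + 1 ≤ r * m + (e - 1) * (e - 2) / 2 →
      GeneralVanishing k r m d := by
    intro d hd2 hc
    rcases Nat.eq_or_lt_of_le hre with h | h
    · exact hsq e d (by rw [h, pow_two]) hd2
    · have hdm : d < e * m := by
        by_contra hge
        push Not at hge
        have h1 : (e * m) ^ 2 ≤ d ^ 2 := Nat.pow_le_pow_left hge 2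
        have h2 : m ^ 2 * r < m ^ 2 * (e * e) := Nat.mul_lt_mul_of_pos_left h (by positivity)
        nlinarith
      exact nearA e r m d (by omega) hre hr2 (by omega) hdm hc
  refine ⟨?_, ?_, ?_, ?_, ?_⟩
  · rintro ⟨t, ht⟩ d hd
    exact hsq t d (by rw [ht, pow_two]) (hdd d hd)
  · intro h2m d hd
    have hd2 := hdd d hd
    rcases Nat.eq_or_lt_of_le hfr with h | h
    · exact hsq f d (by rw [← h, pow_two]) hd2
    · rcases aux_half r m d f hf3 h hfr' hm h2m hd2 with hA | ⟨t, htf, hdt, hM⟩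
      · have hdm : d < (f + 1) * m := by
          by_contra hge
          push Not at hge
          have h1 : ((f + 1) * m) ^ 2 ≤ d ^ 2 := Nat.pow_le_pow_left hge 2
          have h2 : m ^ 2 * r < m ^ 2 * ((f + 1) * (f + 1)) := Nat.mul_lt_mul_of_pos_left hfr' (by positivity)
          nlinarith
        have e1 : f + 1 - 1 = f := by omega
        have e2 : f + 1 - 2 = f - 1 := by omega
        refine nearA (f + 1) r m d (by omega) hfr'.le ?_ (by omega) hdm ?_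
        · rw [e1, e2]
          have : f * (f - 1) ≤ f * f := Nat.mul_le_mul_left _ (by omega)
          omega
        · rw [e1, e2]; exact hA
      · exact uniformC f t r m d hf3 htf hfr hM hm hdt
  · intro hcond d hd
    exact hceil d (hdd d hd) (aux_lin r m d e he4 hre (hdd d hd) hcond)
  · intro d hd hc
    exact hceil d (hdd d hd) hc
  · intro t hM d hd
    have htf := aux_t r t f hf3 hfr' hM
    refine uniformC f t r m d hf3 htf hfr ?_ hm (by rw [mul_comm]; exact hd)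
    have : f * (f + t) = f * t + f ^ 2 := by ring
    rw [this]; omega


end Pool.Agent.Results.MP_cea741_ag.SquareCollisions
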